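import Pool.Agent.Helper87.D3.Rank

/-!
# The norm for lopsided products (MP_381749_lc, constant depth)

`F` is a commutative algebra with two multiplicative filtrations `V`, `U`.  The norm `nu` is the
infimum of `∑ hv ^ x * hu ^ y` over all ways to write an element as a sum of products of an
element of `V x` and an element of `U y`.
-/

set_option autoImplicit false
set_option linter.unusedSectionVars false

namespace Pool.CD

open Finset
open scoped BigOperators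

/-- a multiplicative filtration -/
structure Filt {K F : Type} [Field K] [CommRing F] [Algebra K F] (V : ℕ → Submodule K F) : Prop where
  one : (1 : F) ∈ V 0
  mul : ∀ (x y : ℕ) (a b : F), a ∈ V x → b ∈ V y → a * b ∈ V (x + y)

/-- every element has finite degree -/
def Full {K F : Type} [Field K] [CommRing F] [Algebra K F] (V : ℕ → Submodule K F) : Prop :=
  ∀ a : F, ∃ x, a ∈ V x

section nu
variable {K F : Type} [Field K] [CommRing F] [Algebra K F]
variable (V U : ℕ → Submodule K F) (hv hu : ℝ)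

/-- `f` is a sum of products of total weight at most `κ` -/
def Nu (f : F) (κ : ℝ) : Prop :=
  ∃ (ι : Type) (_ : Fintype ι) (x y : ι → ℕ) (A B : ι → F),
    (∀ i, A i ∈ V (x i)) ∧ (∀ i, B i ∈ U (y i)) ∧ f = ∑ i, A i * B i ∧
    ∑ i, hv ^ x i * hu ^ y i ≤ κ

variable {V U hv hu}

theorem Nu.mono {f : F} {κ κ' : ℝ} (h : Nu V U hv hu f κ) (hk : κ ≤ κ') : Nu V U hv hu f κ' := by
  obtain ⟨ι, hι, x, y, A, B, h1, h2, h3, h4⟩ := h
  exact ⟨ι, hι, x, y, A, B, h1, h2, h3, h4.trans hk⟩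

theorem Nu.nonneg (h0v : 0 ≤ hv) (h0u : 0 ≤ hu) {f : F} {κ : ℝ} (h : Nu V U hv hu f κ) : 0 ≤ κ := by
  obtain ⟨ι, hι, x, y, A, B, h1, h2, h3, h4⟩ := h
  refine le_trans (Finset.sum_nonneg fun i _ => ?_) h4
  positivity

theorem Nu.zero : Nu V U hv hu (0 : F) 0 :=
  ⟨Empty, inferInstance, Empty.elim, Empty.elim, fun i => i.elim, fun i => i.elim,
    fun i => i.elim, fun i => i.elim, by simp, by simp⟩

theorem Nu.add {f g : F} {κ κ' : ℝ} (hf : Nu V U hv hu f κ) (hg : Nu V U hv hu g κ') :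
    Nu V U hv hu (f + g) (κ + κ') := by
  obtain ⟨ι, hι, x, y, A, B, h1, h2, h3, h4⟩ := hf
  obtain ⟨ι', hι', x', y', A', B', h1', h2', h3', h4'⟩ := hg
  refine ⟨ι ⊕ ι', inferInstance, Sum.elim x x', Sum.elim y y', Sum.elim A A', Sum.elim B B',
    ?_, ?_, ?_, ?_⟩
  · rintro (i | i)
    · exact h1 i
    · exact h1' i
  · rintro (i | i)
    · exact h2 i
    · exact h2' i
  · rw [h3, h3', Fintype.sum_sum_type]
    rfl
  · rw [Fintype.sum_sum_type]
    exact add_le_add h4 h4'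

theorem Nu.sum {J : Type} (s : Finset J) (f : J → F) (κ : J → ℝ)
    (h : ∀ j ∈ s, Nu V U hv hu (f j) (κ j)) : Nu V U hv hu (∑ j ∈ s, f j) (∑ j ∈ s, κ j) := by
  classical
  induction s using Finset.induction_on with
  | empty => rw [Finset.sum_empty, Finset.sum_empty]; exact Nu.zero
  | insert j s hj ih =>
    rw [Finset.sum_insert hj, Finset.sum_insert hj]
    exact (h j (Finset.mem_insert_self _ _)).add
      (ih fun i hi => h i (Finset.mem_insert_of_mem hi))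

theorem Nu.smul {f : F} {κ : ℝ} (c : K) (h : Nu V U hv hu f κ) : Nu V U hv hu (c • f) κ := by
  obtain ⟨ι, hι, x, y, A, B, h1, h2, h3, h4⟩ := h
  refine ⟨ι, hι, x, y, fun i => c • A i, B, fun i => ?_, h2, ?_, h4⟩
  · exact Submodule.smul_mem _ c (h1 i)
  · rw [h3, Finset.smul_sum]
    exact Finset.sum_congr rfl fun i _ => (smul_mul_assoc c (A i) (B i)).symm

theorem Nu.mul (hV : Filt V) (hU : Filt U) (h0v : 0 ≤ hv) (h0u : 0 ≤ hu)
    {f g : F} {κ κ' : ℝ} (hf : Nu V U hv hu f κ) (hg : Nu V U hv hu g κ') :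
    Nu V U hv hu (f * g) (κ * κ') := by
  obtain ⟨ι, hι, x, y, A, B, h1, h2, h3, h4⟩ := hf
  obtain ⟨ι', hι', x', y', A', B', h1', h2', h3', h4'⟩ := hg
  refine ⟨ι × ι', inferInstance, fun i => x i.1 + x' i.2, fun i => y i.1 + y' i.2,
    fun i => A i.1 * A' i.2, fun i => B i.1 * B' i.2, ?_, ?_, ?_, ?_⟩
  · rintro ⟨i, i'⟩
    exact hV.mul _ _ _ _ (h1 i) (h1' i')
  · rintro ⟨i, i'⟩
    exact hU.mul _ _ _ _ (h2 i) (h2' i')
  · rw [h3, h3', Finset.sum_mul_sum, Fintype.sum_prod_type]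
    exact Finset.sum_congr rfl fun i _ => Finset.sum_congr rfl fun j _ => by
      simp only []
      ring
  · rw [Fintype.sum_prod_type]
    have h5 : 0 ≤ ∑ i, hv ^ x i * hu ^ y i := Finset.sum_nonneg fun i _ => by positivity
    have h6 : 0 ≤ ∑ i, hv ^ x' i * hu ^ y' i := Finset.sum_nonneg fun i _ => by positivity
    calc ∑ i, ∑ j, hv ^ (x i + x' j) * hu ^ (y i + y' j)
        = (∑ i, hv ^ x i * hu ^ y i) * ∑ j, hv ^ x' j * hu ^ y' j := by
          rw [Finset.sum_mul_sum]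
          refine Finset.sum_congr rfl fun i _ => Finset.sum_congr rfl fun j _ => ?_
          rw [pow_add, pow_add]
          ring
      _ ≤ κ * κ' := mul_le_mul h4 h4' h6 (h5.trans h4)

theorem Nu.ofMul {f g : F} {x y : ℕ} (hf : f ∈ V x) (hg : g ∈ U y) :
    Nu V U hv hu (f * g) (hv ^ x * hu ^ y) :=
  ⟨Unit, inferInstance, fun _ => x, fun _ => y, fun _ => f, fun _ => g, fun _ => hf,
    fun _ => hg, by simp, by simp⟩

theorem Nu.ofV (hU : Filt U) {f : F} {x : ℕ} (h : f ∈ V x) : Nu V U hv hu f (hv ^ x) := by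
  have := Nu.ofMul (hv := hv) (hu := hu) h hU.one
  rwa [mul_one, pow_zero, mul_one] at this

theorem Nu.ofU (hV : Filt V) {f : F} {y : ℕ} (h : f ∈ U y) : Nu V U hv hu f (hu ^ y) := by
  have := Nu.ofMul (hv := hv) (hu := hu) hV.one h
  rwa [one_mul, pow_zero, one_mul] at this

theorem Nu.one (hV : Filt V) (hU : Filt U) : Nu V U hv hu (1 : F) 1 := by
  have := Nu.ofV (hv := hv) (hu := hu) hU hV.one
  rwa [pow_zero] at this

/-! ### the infimum -/

variable (V U hv hu) in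
/-- THE NORM -/
noncomputable def nu (f : F) : ℝ := sInf {κ | Nu V U hv hu f κ}

theorem bddBelow_Nu (h0v : 0 ≤ hv) (h0u : 0 ≤ hu) (f : F) : BddBelow {κ | Nu V U hv hu f κ} :=
  ⟨0, fun _ h => Nu.nonneg h0v h0u h⟩

theorem nonempty_Nu (hV : Full V) (hU : Filt U) (f : F) : {κ | Nu V U hv hu f κ}.Nonempty := by
  obtain ⟨x, hx⟩ := hV f
  exact ⟨_, Nu.ofV hU hx⟩

theorem nu_nonneg (h0v : 0 ≤ hv) (h0u : 0 ≤ hu) (f : F) : 0 ≤ nu V U hv hu f :=
  Real.sInf_nonneg fun _ h => Nu.nonneg h0v h0u h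

theorem nu_le (h0v : 0 ≤ hv) (h0u : 0 ≤ hu) {f : F} {κ : ℝ} (h : Nu V U hv hu f κ) :
    nu V U hv hu f ≤ κ :=
  csInf_le (bddBelow_Nu h0v h0u f) h

theorem Nu_of_lt (hV : Full V) (hU : Filt U) {f : F} {κ : ℝ} (h : nu V U hv hu f < κ) :
    Nu V U hv hu f κ := by
  obtain ⟨κ', h1, h2⟩ := exists_lt_of_csInf_lt (nonempty_Nu hV hU f) h
  exact Nu.mono h1 h2.le

theorem nu_zero (h0v : 0 ≤ hv) (h0u : 0 ≤ hu) : nu V U hv hu (0 : F) = 0 :=
  le_antisymm (nu_le h0v h0u Nu.zero) (nu_nonneg h0v h0u 0)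

theorem nu_one_le (hV : Filt V) (hU : Filt U) (h0v : 0 ≤ hv) (h0u : 0 ≤ hu) :
    nu V U hv hu (1 : F) ≤ 1 := by
  have := nu_le h0v h0u (Nu.ofV (hv := hv) (hu := hu) hU hV.one)
  rwa [pow_zero] at this

theorem nu_add_le (hV : Full V) (hU : Filt U) (h0v : 0 ≤ hv) (h0u : 0 ≤ hu) (f g : F) :
    nu V U hv hu (f + g) ≤ nu V U hv hu f + nu V U hv hu g := by
  refine le_of_forall_pos_le_add fun ε hε => ?_
  have h1 := Nu_of_lt hV hU (show nu V U hv hu f < nu V U hv hu f + ε / 2 by linarith)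
  have h2 := Nu_of_lt hV hU (show nu V U hv hu g < nu V U hv hu g + ε / 2 by linarith)
  have h3 := nu_le h0v h0u (h1.add h2)
  linarith

theorem nu_sum_le (hV : Full V) (hU : Filt U) (h0v : 0 ≤ hv) (h0u : 0 ≤ hu) {J : Type}
    (s : Finset J) (f : J → F) :
    nu V U hv hu (∑ j ∈ s, f j) ≤ ∑ j ∈ s, nu V U hv hu (f j) := by
  classical
  induction s using Finset.induction_on with
  | empty => rw [Finset.sum_empty, Finset.sum_empty, nu_zero h0v h0u]
  | insert j s hj ih =>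
    rw [Finset.sum_insert hj, Finset.sum_insert hj]
    exact (nu_add_le hV hU h0v h0u _ _).trans (add_le_add le_rfl ih)

theorem nu_smul_le (hV : Full V) (hU : Filt U) (h0v : 0 ≤ hv) (h0u : 0 ≤ hu) (c : K) (f : F) :
    nu V U hv hu (c • f) ≤ nu V U hv hu f := by
  refine le_of_forall_pos_le_add fun ε hε => ?_
  have h1 := Nu_of_lt hV hU (show nu V U hv hu f < nu V U hv hu f + ε by linarith)
  exact nu_le h0v h0u (h1.smul c)

theorem nu_mul_le (hF : Full V) (hV : Filt V) (hU : Filt U) (h0v : 0 ≤ hv) (h0u : 0 ≤ hu) (f g : F) :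
    nu V U hv hu (f * g) ≤ nu V U hv hu f * nu V U hv hu g := by
  have hf := nu_nonneg (V := V) (U := U) h0v h0u f
  have hg := nu_nonneg (V := V) (U := U) h0v h0u g
  have key : ∀ ε : ℝ, 0 < ε → nu V U hv hu (f * g) ≤ (nu V U hv hu f + ε) * (nu V U hv hu g + ε) := by
    intro ε hε
    have h1 := Nu_of_lt hF hU (show nu V U hv hu f < nu V U hv hu f + ε by linarith)
    have h2 := Nu_of_lt hF hU (show nu V U hv hu g < nu V U hv hu g + ε by linarith)
    exact nu_le h0v h0u (h1.mul hV hU h0v h0u h2)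
  by_contra hcon
  push Not at hcon
  set a := nu V U hv hu f
  set b := nu V U hv hu g
  set c := nu V U hv hu (f * g)
  have hd : 0 < c - a * b := by linarith
  have hs : 0 < a + b + 1 := by linarith
  have h1 := key (min 1 ((c - a * b) / (2 * (a + b + 1)))) (lt_min one_pos (by positivity))
  set e := min 1 ((c - a * b) / (2 * (a + b + 1)))
  have he0 : 0 < e := lt_min one_pos (by positivity)
  have he1 : e ≤ 1 := min_le_left _ _
  have he2 : e ≤ (c - a * b) / (2 * (a + b + 1)) := min_le_right _ _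
  have he3 : e * (2 * (a + b + 1)) ≤ c - a * b := by
    rwa [le_div_iff₀ (by positivity)] at he2
  nlinarith

theorem nu_V_le (hU : Filt U) (h0v : 0 ≤ hv) (h0u : 0 ≤ hu) {f : F} {x : ℕ} (h : f ∈ V x) :
    nu V U hv hu f ≤ hv ^ x := nu_le h0v h0u (Nu.ofV hU h)

theorem nu_U_le (hV : Filt V) (h0v : 0 ≤ hv) (h0u : 0 ≤ hu) {f : F} {y : ℕ} (h : f ∈ U y) :
    nu V U hv hu f ≤ hu ^ y := nu_le h0v h0u (Nu.ofU hV h)

theorem nu_neg_le (hV : Full V) (hU : Filt U) (h0v : 0 ≤ hv) (h0u : 0 ≤ hu) (f : F) :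
    nu V U hv hu (-f) ≤ nu V U hv hu f := by
  have := nu_smul_le hV hU h0v h0u (-1 : K) f
  rwa [neg_one_smul] at this

end nu

/-! ### ranks of pairs of words -/

open Pool.Agent.Helper87.D3

section rank
variable {K : Type} [Field K] {X Y : Type}
variable {V U : ℕ → Submodule K (X × Y → K)} {hv hu : ℝ}

theorem rankLe_sum {ι : Type} (s : Finset ι) (N : ι → ℕ) (f : ι → X × Y → K)
    (h : ∀ i ∈ s, RankLe (N i) (f i)) : RankLe (∑ i ∈ s, N i) (∑ i ∈ s, f i) := by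
  classical
  induction s using Finset.induction_on with
  | empty => rw [Finset.sum_empty, Finset.sum_empty]; exact RankLe.zero
  | insert i s hi ih =>
    rw [Finset.sum_insert hi, Finset.sum_insert hi]
    exact (h i (Finset.mem_insert_self _ _)).add (ih fun j hj => h j (Finset.mem_insert_of_mem hj))

/-- the norm controls the rank -/
theorem Nu.rank {N : ℕ} {cV cU : ℕ} (hV : ∀ x, ∀ f ∈ V x, ∃ M : ℕ, (M : ℝ) ≤ cV * hv ^ x ∧ RankLe M f)
    (hU : ∀ y, ∀ f ∈ U y, ∃ M : ℕ, (M : ℝ) ≤ cU * hu ^ y ∧ RankLe M f) (h0v : 0 ≤ hv)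
    {f : X × Y → K} {κ : ℝ} (h : Nu V U hv hu f κ)
    (hN : (cV * cU : ℝ) * κ < N + 1) : RankLe N f := by
  classical
  obtain ⟨ι, hι, x, y, A, B, h1, h2, h3, h4⟩ := h
  choose M hM1 hM2 using fun i => hV (x i) (A i) (h1 i)
  choose M' hM1' hM2' using fun i => hU (y i) (B i) (h2 i)
  have h5 : RankLe (∑ i, M i * M' i) f := by
    rw [h3]
    exact rankLe_sum Finset.univ _ _ fun i _ => (hM2 i).mul (hM2' i)
  refine h5.mono ?_
  have h6 : ((∑ i, M i * M' i : ℕ) : ℝ) ≤ (cV * cU : ℝ) * κ := by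
    push_cast
    calc ∑ i, (M i : ℝ) * (M' i : ℝ)
        ≤ ∑ i, (cV * hv ^ x i) * (cU * hu ^ y i) := by
          refine Finset.sum_le_sum fun i _ => mul_le_mul (hM1 i) (hM1' i) (by positivity)
            (by positivity)
      _ = (cV * cU : ℝ) * ∑ i, hv ^ x i * hu ^ y i := by
          rw [Finset.mul_sum]
          exact Finset.sum_congr rfl fun i _ => by ring
      _ ≤ (cV * cU : ℝ) * κ := mul_le_mul_of_nonneg_left h4 (by positivity)
  have h7 : ((∑ i, M i * M' i : ℕ) : ℝ) < (N : ℝ) + 1 := lt_of_le_of_lt h6 hN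
  exact_mod_cast Nat.lt_succ_iff.1 (by exact_mod_cast h7)

end rank

/-! ### words -/

section words
variable {L : ℕ} {wd : Fin L → ℕ} {K : Type} [Field K]

theorem Gen_mono {S : Finset ℕ} {x y : ℕ} (h : x ≤ y) : Gen K wd S x ⊆ Gen K wd S y := by
  rintro f ⟨J, hJ, hc, hd⟩
  exact ⟨J, hJ, hc.trans h, hd⟩

/-- all layers which are covered by some edge of `S`; every layer is covered: every function has
full degree -/
theorem Gen_top {S : Finset ℕ} (hS : ∀ k : Fin L, k.val ∈ S ∨ k.val + 1 ∈ S) (g : Wd wd → K) :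
    g ∈ Gen K wd S S.card := by
  refine ⟨S, Finset.Subset.refl _, le_rfl, fun p p' h => ?_⟩
  have : p = p' := funext fun k => h k (mem_cov.2 (hS k))
  rw [this]

theorem single_sum [Fintype (Wd wd)] [DecidableEq (Wd wd)] (f : Fn K wd) :
    f = ∑ w : Wd wd, fun p => (if p.1 = w then (1 : K) else 0) * f (w, p.2) := by
  funext p
  rw [Finset.sum_apply, Finset.sum_eq_single p.1]
  · rw [if_pos rfl, one_mul]
  · intro w _ hw
    rw [if_neg (Ne.symm hw), zero_mul]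
  · intro h
    exact absurd (Finset.mem_univ _) h

theorem Filt_UU (S : Finset ℕ) : Filt (UU K wd S) where
  one := one_mem_UU S
  mul _ _ _ _ ha hb := mul_mem_UU ha hb

theorem Filt_VV (S : Finset ℕ) : Filt (VV K wd S) where
  one := one_mem_VV S
  mul _ _ _ _ ha hb := mul_mem_VV ha hb

theorem Full_UU {S : Finset ℕ} (hS : ∀ k : Fin L, k.val ∈ S ∨ k.val + 1 ∈ S) :
    Full (UU K wd S) := by
  classical
  intro f
  refine ⟨S.card, ?_⟩
  rw [single_sum f]
  refine Submodule.sum_mem _ fun w _ => Submodule.subset_span ?_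
  exact ⟨fun p => if p = w then 1 else 0, Gen_top hS _, fun q => f (w, q), rfl⟩

theorem Full_VV {S : Finset ℕ} (hS : ∀ k : Fin L, k.val ∈ S ∨ k.val + 1 ∈ S) :
    Full (VV K wd S) := by
  classical
  intro f
  refine ⟨S.card, ?_⟩
  rw [single_sum f]
  refine Submodule.sum_mem _ fun w _ => Submodule.subset_span ?_
  exact ⟨fun q => f (w, q), Gen_top hS _, fun p => if p = w then 1 else 0, rfl⟩

theorem mono_UU (S : Finset ℕ) {x y : ℕ} (h : x ≤ y) : UU K wd S x ≤ UU K wd S y := by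
  refine Submodule.span_mono ?_
  rintro f ⟨g, hg, a, rfl⟩
  exact ⟨g, Gen_mono h hg, a, rfl⟩

theorem mono_VV (S : Finset ℕ) {x y : ℕ} (h : x ≤ y) : VV K wd S x ≤ VV K wd S y := by
  refine Submodule.span_mono ?_
  rintro f ⟨g, hg, a, rfl⟩
  exact ⟨g, Gen_mono h hg, a, rfl⟩

variable (K wd) in
/-- the norm on functions of pairs of words; `SU`, `SV` are the edges of the two kinds -/
noncomputable def nuW (SU SV : Finset ℕ) (hv hu : ℝ) (f : Fn K wd) : ℝ :=
  nu (VV K wd SV) (UU K wd SU) hv hu f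

/-- functions of one word, and products of such, have norm at most one -/
theorem Nu_pair (SU SV : Finset ℕ) (hv hu : ℝ) (a b : Wd wd → K) :
    Nu (VV K wd SV) (UU K wd SU) hv hu (fun p => a p.1 * b p.2) 1 := by
  have h1 : (fun p : Wd wd × Wd wd => a p.1 * (1 : Wd wd → K) p.2) ∈ VV K wd SV 0 :=
    Submodule.subset_span ⟨1, Gen_one SV, a, rfl⟩
  have h2 : (fun p : Wd wd × Wd wd => (1 : Wd wd → K) p.1 * b p.2) ∈ UU K wd SU 0 :=
    Submodule.subset_span ⟨1, Gen_one SU, b, rfl⟩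
  have h3 := Nu.ofMul (hv := hv) (hu := hu) h1 h2
  rw [pow_zero, pow_zero, mul_one] at h3
  have h4 : (fun p : Wd wd × Wd wd => a p.1 * b p.2) =
      (fun p : Wd wd × Wd wd => a p.1 * (1 : Wd wd → K) p.2) *
      (fun p : Wd wd × Wd wd => (1 : Wd wd → K) p.1 * b p.2) := by
    funext p
    simp
  rw [h4]
  exact h3

theorem nu_pair_le (SU SV : Finset ℕ) {hv hu : ℝ} (h0v : 0 ≤ hv) (h0u : 0 ≤ hu)
    (a b : Wd wd → K) :
    nu (VV K wd SV) (UU K wd SU) hv hu (fun p => a p.1 * b p.2) ≤ 1 :=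
  nu_le h0v h0u (Nu_pair SU SV hv hu a b)

/-- sums of `N` products have norm at most `N` -/
theorem Nu_of_rankLe (SU SV : Finset ℕ) (hv hu : ℝ) {N : ℕ} {f : Fn K wd} (h : RankLe N f) :
    Nu (VV K wd SV) (UU K wd SU) hv hu f N := by
  obtain ⟨a, b, rfl⟩ := h
  have h1 := Nu.sum (V := VV K wd SV) (U := UU K wd SU) (hv := hv) (hu := hu)
    (Finset.univ : Finset (Fin N)) (fun i (p : Wd wd × Wd wd) => a i p.1 * b i p.2) (fun _ => 1)
    fun i _ => Nu_pair SU SV hv hu (a i) (b i)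
  rw [Finset.sum_const, Finset.card_univ, Fintype.card_fin, nsmul_eq_mul, mul_one] at h1
  have h2 : (fun p : Wd wd × Wd wd => ∑ i, a i p.1 * b i p.2) =
      ∑ i, fun p : Wd wd × Wd wd => a i p.1 * b i p.2 := by
    funext p
    rw [Finset.sum_apply]
  rw [h2]
  exact h1

/-- THE RANK BOUND, predicate form: a regular matrix of pairs of words -/
theorem card_le_of_Nu (hwd : ∀ k, 1 ≤ wd k) {HU HV : ℕ} (hHU : 1 ≤ HU) (hHV : 1 ≤ HV)
    {SU SV : Finset ℕ} (hU : ∀ e ∈ SU, wcov wd {e} ≤ HU) (hV : ∀ e ∈ SV, wcov wd {e} ≤ HV)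
    {f : Fn K wd} (hdet : (Matrix.of fun p p' => f (p, p')).det ≠ 0) {κ : ℝ}
    (h1 : Nu (VV K wd SV) (UU K wd SU) (HV : ℝ) (HU : ℝ) f κ) :
    (Fintype.card (Wd wd) : ℝ) ≤ 2 ^ (SU.card + SV.card) * κ := by
  have h0v : (0 : ℝ) ≤ HV := Nat.cast_nonneg _
  have h0u : (0 : ℝ) ≤ HU := Nat.cast_nonneg _
  have h2 : RankLe (⌊(((2 ^ SV.card : ℕ) : ℝ) * ((2 ^ SU.card : ℕ) : ℝ)) * κ⌋₊) f := by
    refine Nu.rank (cV := 2 ^ SV.card) (cU := 2 ^ SU.card) ?_ ?_ h0v h1 (Nat.lt_floor_add_one _)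
    · intro x g hg
      exact ⟨Dm wd SV x, by exact_mod_cast Dm_le hwd hHV hV x, rank_VV hg⟩
    · intro x g hg
      exact ⟨Dm wd SU x, by exact_mod_cast Dm_le hwd hHU hU x, rank_UU hg⟩
  have h3 := card_le_of_rankLe h2 hdet
  have hκ : 0 ≤ κ := Nu.nonneg h0v h0u h1
  have h4 : (Fintype.card (Wd wd) : ℝ) ≤ (((2 ^ SV.card : ℕ) : ℝ) * ((2 ^ SU.card : ℕ) : ℝ)) * κ :=
    (Nat.cast_le.2 h3).trans (Nat.floor_le (by positivity))
  refine h4.trans (le_of_eq ?_)
  push_cast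
  rw [pow_add]
  ring

/-- THE RANK BOUND for the infimum -/
theorem card_le_of_nu (hwd : ∀ k, 1 ≤ wd k) {HU HV : ℕ} (hHU : 1 ≤ HU) (hHV : 1 ≤ HV)
    {SU SV : Finset ℕ} (hSV : ∀ k : Fin L, k.val ∈ SV ∨ k.val + 1 ∈ SV)
    (hU : ∀ e ∈ SU, wcov wd {e} ≤ HU) (hV : ∀ e ∈ SV, wcov wd {e} ≤ HV)
    {f : Fn K wd} (hdet : (Matrix.of fun p p' => f (p, p')).det ≠ 0) :
    (Fintype.card (Wd wd) : ℝ) ≤
      2 ^ (SU.card + SV.card) * nu (VV K wd SV) (UU K wd SU) (HV : ℝ) (HU : ℝ) f := by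
  refine le_of_forall_pos_le_add fun ε hε => ?_
  have hpos : (0 : ℝ) < 2 ^ (SU.card + SV.card) := by positivity
  have h1 := card_le_of_Nu hwd hHU hHV hU hV hdet
    (Nu_of_lt (Full_VV hSV) (Filt_UU SU) (lt_add_of_pos_right
      (nu (VV K wd SV) (UU K wd SU) (HV : ℝ) (HU : ℝ) f)
      (show (0 : ℝ) < ε / 2 ^ (SU.card + SV.card) by positivity)))
  refine h1.trans (le_of_eq ?_)
  rw [mul_add]
  field_simp

end words

end Pool.CD
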